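import Pool.Agent.U36.SD.Stm

/-!
Project SD, package FIB: the fibres (uniform distribution of Kummer characters).
-/

set_option autoImplicit false
set_option linter.unusedSectionVars false

open NumberField Polynomial IsDedekindDomain Pool.Agent.W401.Cheb

namespace Pool.Agent.U103.SD

open Pool.Agent.U36.SD

section proof

variable {K : Type} [Field K] [NumberField K]

/-- powers of `σ` on an eigenvector of exponent `a` -/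
lemma pow_act (σ : GK K) {ℓ a : ℕ} (ha : ∀ ζ : AlgebraicClosure K, ζ ^ ℓ = 1 → σ ζ = ζ ^ a)
    {ζ : AlgebraicClosure K} (hζ : ζ ^ ℓ = 1) (k : ℕ) : (σ ^ k) ζ = ζ ^ (a ^ k) := by
  induction k with
  | zero => rw [pow_zero, pow_zero, pow_one]; rfl
  | succ k ih => rw [pow_succ', AlgEquiv.mul_apply, ih, map_pow, ha ζ hζ, ← pow_mul, pow_succ']

/-- elements of a normal subfield are moved in the subfield -/
lemma map_mem (N : IntermediateField K (AlgebraicClosure K)) [Normal K N] (σ : GK K)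
    {x : AlgebraicClosure K} (hx : x ∈ N) : σ x ∈ N := by
  have h := AlgEquiv.restrictNormal_commutes σ N ⟨x, hx⟩
  have h2 : (algebraMap N (AlgebraicClosure K)) ⟨x, hx⟩ = x := rfl
  rw [h2] at h
  rw [← h]
  exact ((σ.restrictNormal N) ⟨x, hx⟩).2

/-- the key computation -/
lemma key {N : IntermediateField K (AlgebraicClosure K)} [Normal K N] {n ℓ a : ℕ} (hn : ℓ ∣ n)
    {c ρ : AlgebraicClosure K} (hc : c ∈ N) (hρ0 : ρ ≠ 0) (hρ : ρ ^ ℓ = c)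
    (σ m : GK K) (hm : m ∈ HZ N n)
    (ha : ∀ ζ : AlgebraicClosure K, ζ ^ ℓ = 1 → σ ζ = ζ ^ a) (k : ℕ) :
    ∃ η : AlgebraicClosure K, η ^ ℓ = 1 ∧ ((σ * m) ^ k) ρ = η * (σ ^ k) ρ ∧
      m (∏ i ∈ Finset.range k, ((σ ^ i) ρ) ^ (a ^ (k - i))) =
        η * ∏ i ∈ Finset.range k, ((σ ^ i) ρ) ^ (a ^ (k - i)) := by
  have hmζ : ∀ ζ : AlgebraicClosure K, ζ ^ ℓ = 1 → m ζ = ζ := by
    intro ζ hζ
    obtain ⟨j, rfl⟩ := hn
    exact hm.2 ζ (by rw [pow_mul, hζ, one_pow])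
  induction k with
  | zero =>
    refine ⟨1, one_pow _, ?_, ?_⟩
    · rw [pow_zero, pow_zero, one_mul]
    · rw [Finset.range_zero, Finset.prod_empty, map_one, one_mul]
  | succ k ih =>
    obtain ⟨η, hη, h1, h2⟩ := ih
    set y := (σ ^ k) ρ with hy
    have hy0 : y ≠ 0 := (map_ne_zero_iff _ (σ ^ k).injective).2 hρ0
    have hyN : y ^ ℓ ∈ N := by
      rw [hy, ← map_pow, hρ]
      exact map_mem N _ hc
    set ε := m y / y with hε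
    have hεy : m y = ε * y := by rw [hε, div_mul_cancel₀ _ hy0]
    have hε1 : ε ^ ℓ = 1 := by
      rw [hε, div_pow, ← map_pow, hm.1 _ hyN, div_self (pow_ne_zero _ hy0)]
    have hP : ∏ i ∈ Finset.range (k + 1), ((σ ^ i) ρ) ^ (a ^ (k + 1 - i)) =
        ((∏ i ∈ Finset.range k, ((σ ^ i) ρ) ^ (a ^ (k - i))) * y) ^ a := by
      rw [Finset.prod_range_succ, mul_pow, ← Finset.prod_pow]
      congr 1
      · refine Finset.prod_congr rfl fun i hi => ?_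
        have hik := Finset.mem_range.1 hi
        rw [← pow_mul, ← pow_succ, Nat.succ_sub hik.le]
      · rw [Nat.add_sub_cancel_left, pow_one]
    refine ⟨(η * ε) ^ a, ?_, ?_, ?_⟩
    · rw [← pow_mul, mul_comm a ℓ, pow_mul, mul_pow, hη, hε1, one_mul, one_pow]
    · rw [pow_succ', AlgEquiv.mul_apply, h1, AlgEquiv.mul_apply, map_mul, hmζ η hη, hεy, ← mul_assoc,
        map_mul, ha (η * ε) (by rw [mul_pow, hη, hε1, one_mul]), pow_succ', AlgEquiv.mul_apply]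
    · rw [hP, map_pow, map_mul, h2, hεy, ← mul_pow]
      congr 1
      ring

end proof

theorem t_FIB (hMV : S_MV) (hOP : S_OP) : S_FIB := by
  classical
  intro K _ _ N _ _ A hA hd c hc h σ A' hsub hgood
  have hApos : ∀ ℓ ∈ A, 0 < ℓ := fun ℓ hℓ => (hA ℓ hℓ).pos
  have hopen : IsOpen (US N A c : Set (GK K)) := (hOP K N A hApos c).2.1
  have hfin : Finite (GK K ⧸ US N A c) :=
    Subgroup.quotient_finite_of_isOpen (US N A c) hopen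
  set n := ∏ ℓ ∈ A, ℓ with hn
  have hn0 : 0 < n := Finset.prod_pos hApos
  have hdvd : ∀ ℓ ∈ A, ℓ ∣ n := fun ℓ hℓ => Finset.dvd_prod_of_mem _ hℓ
  have hnz : NeZero n := ⟨hn0.ne'⟩
  obtain ⟨Z, hZ⟩ : ∃ Z : AlgebraicClosure K, IsPrimitiveRoot Z n :=
    HasEnoughRootsOfUnity.exists_primitiveRoot (AlgebraicClosure K) n
  -- roots
  have hroot : ∀ ℓ : ℕ, ∃ ρ : AlgebraicClosure K, ℓ ∈ A → ρ ^ ℓ = c ℓ := by
    intro ℓ
    by_cases hℓ : ℓ ∈ A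
    · obtain ⟨z, hz⟩ := IsAlgClosed.exists_pow_nat_eq (c ℓ) (hApos ℓ hℓ)
      exact ⟨z, fun _ => hz⟩
    · exact ⟨0, fun h => absurd h hℓ⟩
  choose ρ hρ using hroot
  have hρ0 : ∀ ℓ ∈ A, ρ ℓ ≠ 0 := by
    intro ℓ hℓ h0
    have h1 := hρ ℓ hℓ
    rw [h0] at h1
    exact (hc ℓ hℓ).2 0 N.zero_mem h1
  -- exponents
  have hexp : ∀ ℓ : ℕ, ∃ a : ℕ, ℓ ∈ A' → (∀ ζ : AlgebraicClosure K, ζ ^ ℓ = 1 → σ ζ = ζ ^ a) ∧
      a ^ h ≡ 1 [MOD ℓ] ∧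
      ∀ x ∈ N, x ^ ℓ ≠ ∏ i ∈ Finset.range h, (σ ^ i) (c ℓ) ^ (a ^ (h - i)) := by
    intro ℓ
    by_cases hℓ : ℓ ∈ A'
    · obtain ⟨a, ha⟩ := hgood ℓ hℓ
      exact ⟨a, fun _ => ha⟩
    · exact ⟨0, fun h => absurd h hℓ⟩
  choose a ha using hexp
  set ξ : ℕ → AlgebraicClosure K := fun ℓ =>
    ∏ i ∈ Finset.range h, ((σ ^ i) (ρ ℓ)) ^ ((a ℓ) ^ (h - i)) with hξ
  have hξpow : ∀ ℓ ∈ A', ξ ℓ ^ ℓ = ∏ i ∈ Finset.range h, (σ ^ i) (c ℓ) ^ ((a ℓ) ^ (h - i)) := by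
    intro ℓ hℓ
    rw [hξ]
    simp only
    rw [← Finset.prod_pow]
    refine Finset.prod_congr rfl fun i _ => ?_
    rw [← pow_mul, mul_comm, pow_mul, ← map_pow, hρ ℓ (hsub hℓ)]
  have hξN : ∀ ℓ ∈ A', ξ ℓ ^ ℓ ∈ N ∧ ∀ x ∈ N, x ^ ℓ ≠ ξ ℓ ^ ℓ := by
    intro ℓ hℓ
    rw [hξpow ℓ hℓ]
    refine ⟨prod_mem fun i _ => pow_mem (map_mem N _ (hc ℓ (hsub hℓ)).1) _, (ha ℓ hℓ).2.2⟩
  have hξ0 : ∀ ℓ ∈ A', ξ ℓ ≠ 0 := by
    intro ℓ hℓ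
    rw [hξ]
    simp only
    exact Finset.prod_ne_zero_iff.2 fun i _ => pow_ne_zero _
      ((map_ne_zero_iff _ (σ ^ i).injective).2 (hρ0 ℓ (hsub hℓ)))
  -- the elements `τ k`
  have hτ : ∀ k : ((ℓ : A') → Fin ℓ.1), ∃ τ : GK K, τ ∈ HZ N n ∧
      ∀ ℓ : A', τ (ξ ℓ) = Z ^ ((n / ℓ.1) * (k ℓ).1) * ξ ℓ := by
    intro k
    obtain ⟨τ, h1, h2, h3⟩ := hMV K N A' (fun ℓ hℓ => hA ℓ (hsub hℓ)) (fun ℓ hℓ => hd ℓ (hsub hℓ)) n hn0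
      (fun ℓ hℓ => hdvd ℓ (hsub hℓ)) Z hZ ξ hξN (fun ℓ => if hℓ : ℓ ∈ A' then (k ⟨ℓ, hℓ⟩).1 else 0)
    refine ⟨τ, ⟨h1, fun ζ hζ => ?_⟩, fun ℓ => ?_⟩
    · obtain ⟨i, -, hi⟩ := hZ.eq_pow_of_pow_eq_one hζ
      rw [← hi, map_pow, h2]
    · have := h3 ℓ.1 ℓ.2
      rw [this, dif_pos ℓ.2]
  choose τ hτH hτξ using hτ
  set S : Set (GK K) := {g | g ∈ CO A c h ∧ σ⁻¹ * g ∈ HZ N n} with hS
  -- the action of the elements `σ⁻¹ g`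
  have hact : ∀ g ∈ S, ∀ ℓ ∈ A', (σ⁻¹ * g) (ξ ℓ) = (ρ ℓ / (σ ^ h) (ρ ℓ)) * ξ ℓ := by
    intro g hg ℓ hℓ
    have hℓA := hsub hℓ
    obtain ⟨hgC, hgH⟩ := hg
    obtain ⟨η, hη, h1, h2⟩ := key (hdvd ℓ hℓA) (hc ℓ hℓA).1 (hρ0 ℓ hℓA) (hρ ℓ hℓA) σ (σ⁻¹ * g) hgH
      (ha ℓ hℓ).1 h
    have hg' : σ * (σ⁻¹ * g) = g := by group
    rw [hg'] at h1
    have hgh : (g ^ h) (ρ ℓ) = ρ ℓ := by
      refine hgC ℓ hℓA (fun ζ hζ => ?_) _ (hρ ℓ hℓA)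
      have hgζ : ∀ ζ : AlgebraicClosure K, ζ ^ ℓ = 1 → g ζ = ζ ^ (a ℓ) := by
        intro ζ hζ
        have hmζ : (σ⁻¹ * g) ζ = ζ := by
          obtain ⟨j, hj⟩ := hdvd ℓ hℓA
          exact hgH.2 ζ (by rw [hj, pow_mul, hζ, one_pow])
        rw [← hg', AlgEquiv.mul_apply, hmζ, (ha ℓ hℓ).1 ζ hζ]
      rw [pow_act g hgζ hζ h, pow_eq_pow_mod _ hζ, (ha ℓ hℓ).2.1, ← pow_eq_pow_mod _ hζ, pow_one]
    rw [hgh] at h1
    have hy0 : (σ ^ h) (ρ ℓ) ≠ 0 := (map_ne_zero_iff _ (σ ^ h).injective).2 (hρ0 ℓ hℓA)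
    rw [show ρ ℓ / (σ ^ h) (ρ ℓ) = η by rw [div_eq_iff hy0]; exact h1]
    exact h2
  -- `US` fixes `ξ`
  have hUξ : ∀ u ∈ US N A c, ∀ ℓ ∈ A', u (ξ ℓ) = ξ ℓ := by
    intro u hu ℓ hℓ
    rw [hξ]
    simp only
    rw [map_prod]
    refine Finset.prod_congr rfl fun i _ => ?_
    rw [map_pow, (hu.2 ℓ (hsub hℓ)).2 (σ ^ i) ((σ ^ i) (ρ ℓ)) (by rw [← map_pow, hρ ℓ (hsub hℓ)])]
  -- the injection
  have hch : ∀ q : (QuotientGroup.mk : GK K → GK K ⧸ US N A c) '' S, ∃ g ∈ S,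
      (QuotientGroup.mk g : GK K ⧸ US N A c) = q.1 := by
    rintro ⟨q, g, hg, rfl⟩
    exact ⟨g, hg, rfl⟩
  choose r hrS hr using hch
  have hprod : (∏ ℓ ∈ A', ℓ) = Nat.card ((ℓ : A') → Fin ℓ.1) := by
    rw [Nat.card_eq_fintype_card, Fintype.card_pi]
    simp only [Fintype.card_fin]
    rw [← Finset.prod_coe_sort]
  rw [hprod, ← Nat.card_coe_set_eq, ← Nat.card_coe_set_eq, ← Nat.card_prod]
  let F : (((ℓ : A') → Fin ℓ.1) × ((QuotientGroup.mk : GK K → GK K ⧸ US N A c) '' S)) →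
      ((QuotientGroup.mk : GK K → GK K ⧸ US N A c) '' (HZ N n : Set (GK K))) := fun x =>
    ⟨QuotientGroup.mk (τ x.1 * (σ⁻¹ * r x.2)), τ x.1 * (σ⁻¹ * r x.2),
      mul_mem (hτH x.1) (hrS x.2).2, rfl⟩
  have hF : Function.Injective F := by
    rintro ⟨k, q⟩ ⟨k', q'⟩ hx
    have hx1 : (QuotientGroup.mk (τ k * (σ⁻¹ * r q)) : GK K ⧸ US N A c) =
        QuotientGroup.mk (τ k' * (σ⁻¹ * r q')) := congrArg Subtype.val hx
    have hu := QuotientGroup.eq.1 hx1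
    set u := (τ k * (σ⁻¹ * r q))⁻¹ * (τ k' * (σ⁻¹ * r q')) with hudef
    have hu2 : τ k' * (σ⁻¹ * r q') = (τ k * (σ⁻¹ * r q)) * u := by rw [hudef]; group
    have hkk : k = k' := by
      funext ℓ
      have hℓ := ℓ.2
      have hℓA := hsub hℓ
      have hval : ∀ (k : (ℓ : A') → Fin ℓ.1) (q), (τ k * (σ⁻¹ * r q)) (ξ ℓ) =
          Z ^ ((n / ℓ.1) * (k ℓ).1) * ((ρ ℓ / (σ ^ h) (ρ ℓ)) * ξ ℓ) := by
        intro k q
        have e1 := hact (r q) (hrS q) ℓ.1 hℓ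
        have hd0 : ((ρ ℓ / (σ ^ h) (ρ ℓ)) : AlgebraicClosure K) ^ ℓ.1 = 1 := by
          have e2 : ((σ⁻¹ * r q) (ξ ℓ)) ^ ℓ.1 = (ξ ℓ) ^ ℓ.1 := by
            rw [← map_pow, (hrS q).2.1 _ (hξN ℓ.1 hℓ).1]
          rw [e1, mul_pow] at e2
          exact mul_eq_right₀ (pow_ne_zero _ (hξ0 ℓ.1 hℓ)) |>.1 e2
        have hfix : τ k (ρ ℓ / (σ ^ h) (ρ ℓ)) = ρ ℓ / (σ ^ h) (ρ ℓ) := by
          apply (hτH k).2
          obtain ⟨j, hj⟩ := hdvd ℓ.1 hℓA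
          rw [hj, pow_mul, hd0, one_pow]
        rw [AlgEquiv.mul_apply, e1, map_mul, hfix, hτξ]
        ring
      have e3 : (τ k' * (σ⁻¹ * r q')) (ξ ℓ) = (τ k * (σ⁻¹ * r q)) (ξ ℓ) := by
        rw [hu2, AlgEquiv.mul_apply, hUξ u hu ℓ.1 hℓ]
      rw [hval, hval] at e3
      have hne : (ρ ℓ / (σ ^ h) (ρ ℓ)) * ξ ℓ ≠ 0 := by
        refine mul_ne_zero (div_ne_zero (hρ0 ℓ.1 hℓA) ?_) (hξ0 ℓ.1 hℓ)
        exact (map_ne_zero_iff _ (σ ^ h).injective).2 (hρ0 ℓ.1 hℓA)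
      have e4 := mul_right_cancel₀ hne e3
      rw [pow_mul, pow_mul] at e4
      have hzp : IsPrimitiveRoot (Z ^ (n / ℓ.1)) ℓ.1 :=
        hZ.pow hn0 (Nat.div_mul_cancel (hdvd ℓ.1 hℓA)).symm
      exact Fin.ext (hzp.pow_inj (k ℓ).2 (k' ℓ).2 e4.symm)
    subst hkk
    have hqq : q = q' := by
      apply Subtype.ext
      rw [← hr q, ← hr q', QuotientGroup.eq]
      have e5 : (r q)⁻¹ * r q' = u := by rw [hudef]; group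
      rw [e5]
      exact hu
    rw [hqq]
  exact Nat.card_le_card_of_injective F hF

end Pool.Agent.U103.SD
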